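import Mathlib

/-!
# A poset whose promotion sorting profile is not unimodal

For the five-element poset with the relations `0 < 1 < 4` and `2 < 3 < 4` the sequence
`â_0, ..., â_4` is `6, 36, 30, 32, 16`, which is not unimodal.
-/

open Finset

namespace Pool.Agent.Results.MP_e89dd6_co.NotUnimodal

section definitions

variable {P : Type} [PartialOrder P] [Fintype P] [DecidableEq P]
  [DecidableRel ((· < ·) : P → P → Prop)]

/-- The set whose only element is the `L`-successor of `x`: the element with the smallest label
among all the elements above `x`. It is empty if and only if `x` is maximal. -/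
def successor (L : P → ℕ) (x : P) : Finset P :=
  univ.filter (fun y => x < y ∧ ∀ z, x < z → L y ≤ L z)

/-- `path L i` is the set `{v_{i+1}}` (empty if the sequence `v_1, v_2, ...` has stopped before):
`v_1` is the element with label `1`, and `v_{i+1}` is the `L`-successor of `v_i`. -/
def path (L : P → ℕ) : ℕ → Finset P
  | 0 => univ.filter (fun x => L x = 1)
  | i + 1 => (path L i).biUnion (successor L)

/-- Extended promotion. An element that is not on the path (the path has at most `|P|` elements)
has its label lowered by one, an element of the path that has an `L`-successor `y` gets the label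
`L y - 1`, and the last (maximal) element of the path gets the label `|P|`. -/
def promotion (L : P → ℕ) : P → ℕ := fun x =>
  if ∃ i < Fintype.card P, x ∈ path L i then
    if (successor L x).Nonempty then (∑ y ∈ successor L x, L y) - 1 else Fintype.card P
  else L x - 1

/-- Order-preserving labelings. -/
def IsLinearExtension (L : P → ℕ) : Prop := ∀ x y, x ≤ y → L x ≤ L y

/-- The labeling with labels `1, ..., n` given by a bijection of `P` with `{0, ..., n-1}`. -/
def label (L : P ≃ Fin (Fintype.card P)) : P → ℕ := fun x => (L x : ℕ) + 1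

variable (P) in
/-- `a_k(P)`: the number of labelings `L` such that `∂^k L` is a linear extension. -/
noncomputable def a (k : ℕ) : ℕ :=
  Nat.card {L : P ≃ Fin (Fintype.card P) // IsLinearExtension (promotion^[k] (label L))}

variable (P) in
/-- `â_0 = a_0` and `â_k = a_k - a_{k-1}`. -/
noncomputable def hatA (k : ℕ) : ℤ := if k = 0 then a P 0 else (a P k : ℤ) - a P (k - 1)

end definitions

/-- A sequence `b_0, ..., b_{n-1}` is unimodal: some index `j` satisfies
`b_0 ≤ ... ≤ b_j ≥ ... ≥ b_{n-1}`. -/
def Unimodal (b : ℕ → ℤ) (n : ℕ) : Prop :=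
  ∃ j < n, (∀ i < j, b i ≤ b (i + 1)) ∧ ∀ i, j ≤ i → i + 1 < n → b (i + 1) ≤ b i

/-- The order relation of the five-element poset with covering relations
`0 < 1`, `1 < 4`, `2 < 3`, `3 < 4`. -/
def leQ (x y : Fin 5) : Prop :=
  x = y ∨ (x, y) ∈ ({(0, 1), (0, 4), (1, 4), (2, 3), (2, 4), (3, 4)} : Finset (Fin 5 × Fin 5))

instance : DecidableRel leQ := fun x y => by unfold leQ; infer_instance

/-- The underlying set of the poset. -/
def Q : Type := Fin 5

instance : Fintype Q := inferInstanceAs (Fintype (Fin 5))

instance : DecidableEq Q := inferInstanceAs (DecidableEq (Fin 5))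

/-- The five-element poset. -/
instance : PartialOrder Q where
  le := leQ
  le_refl := by
    have : ∀ x : Fin 5, leQ x x := by decide
    exact this
  le_trans := by
    have : ∀ x y z : Fin 5, leQ x y → leQ y z → leQ x z := by decide
    exact this
  le_antisymm := by
    have : ∀ x y : Fin 5, leQ x y → leQ y x → x = y := by decide
    exact this

instance : DecidableRel ((· ≤ ·) : Q → Q → Prop) := inferInstanceAs (DecidableRel leQ)

instance : DecidableRel ((· < ·) : Q → Q → Prop) := fun x y =>
  decidable_of_iff (x ≤ y ∧ ¬ y ≤ x) lt_iff_le_not_ge.symm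

/-- the labeling with the given code -/
def dec (c : ℕ) : Q → ℕ := fun x => c / 8 ^ (Fin.val x) % 8

/-- the code of a labeling -/
def enc (L : Q → ℕ) : ℕ :=
  L (0 : Fin 5) + 8 * (L (1 : Fin 5) + 8 * (L (2 : Fin 5) + 8 * (L (3 : Fin 5) +
    8 * L (4 : Fin 5))))

lemma dec_enc (L : Q → ℕ) (h : ∀ x, L x < 8) : dec (enc L) = L := by
  funext x
  have h0 := h (0 : Fin 5)
  have h1 := h (1 : Fin 5)
  have h2 := h (2 : Fin 5)
  have h3 := h (3 : Fin 5)
  have h4 := h (4 : Fin 5)
  unfold dec enc
  match x with
  | (0 : Fin 5) => simp; omega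
  | (1 : Fin 5) => simp; omega
  | (2 : Fin 5) => simp; omega
  | (3 : Fin 5) => simp; omega
  | (4 : Fin 5) => simp; omega

/-- one step of extended promotion on codes -/
def step (c : ℕ) : ℕ := enc (promotion (dec c))

lemma iter_eq (c : ℕ) : ∀ k : ℕ, (∀ j < k, ∀ x, promotion (dec (step^[j] c)) x < 8) →
    promotion^[k] (dec c) = dec (step^[k] c) := by
  intro k
  induction k with
  | zero => intro _; rfl
  | succ k ih =>
    intro h
    rw [Function.iterate_succ_apply', Function.iterate_succ_apply',
      ih (fun j hj => h j (Nat.lt_succ_of_lt hj))]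
    exact (dec_enc _ (h k (Nat.lt_succ_self k))).symm

lemma label_lt (L : Q ≃ Fin (Fintype.card Q)) (x : Q) : label L x < 8 := by
  have h := (L x).isLt
  have h5 : Fintype.card Q = 5 := rfl
  unfold label
  omega

/-- order-preserving, on codes -/
def isLin (c : ℕ) : Bool := decide (∀ x y : Q, x ≤ y → dec c x ≤ dec c y)

def cnt (k : ℕ) : ℕ := (univ.filter (fun L : Q ≃ Fin (Fintype.card Q) =>
  isLin (step^[k] (enc (label L))) = true)).card

lemma bounded : ∀ L : Q ≃ Fin (Fintype.card Q), ∀ j < 4, ∀ x,
    promotion (dec (step^[j] (enc (label L)))) x < 8 := by decide +kernel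

lemma a_eq (k : ℕ) (hk : k ≤ 4) : a Q k = cnt k := by
  classical
  unfold a cnt
  rw [Nat.card_eq_fintype_card, Fintype.card_subtype]
  refine congrArg Finset.card ?_
  ext L
  simp only [mem_filter, mem_univ, true_and]
  have h1 : dec (enc (label L)) = label L := dec_enc _ (label_lt L)
  have h2 := iter_eq (enc (label L)) k (fun j hj => bounded L j (by omega))
  rw [h1] at h2
  rw [h2]
  unfold isLin IsLinearExtension
  rw [decide_eq_true_eq]

theorem t0 : cnt 0 = 6 := by decide +kernel
theorem t1 : cnt 1 = 42 := by decide +kernel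
theorem t2 : cnt 2 = 72 := by decide +kernel
theorem t3 : cnt 3 = 104 := by decide +kernel
theorem t4 : cnt 4 = 120 := by decide +kernel

/-- **The extended promotion sorting profile need not be unimodal.** For the five-element poset
`Q` with the covering relations `0 < 1`, `1 < 4`, `2 < 3`, `3 < 4`, the sequence
`â_0, ..., â_4` is `6, 36, 30, 32, 16`; it is not unimodal, as `â_1 > â_2 < â_3`. -/
theorem result : Fintype.card Q = 5 ∧ hatA Q 0 = 6 ∧ hatA Q 1 = 36 ∧ hatA Q 2 = 30 ∧
    hatA Q 3 = 32 ∧ hatA Q 4 = 16 ∧ ¬ Unimodal (hatA Q) (Fintype.card Q) := by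
  have e0 : hatA Q 0 = 6 := by
    unfold hatA; rw [if_pos rfl, a_eq 0 (by norm_num), t0]; rfl
  have e1 : hatA Q 1 = 36 := by
    unfold hatA; rw [if_neg (by norm_num), a_eq 1 (by norm_num), a_eq (1 - 1) (by norm_num), t1]
    have : cnt (1 - 1) = 6 := t0
    rw [this]; norm_num
  have e2 : hatA Q 2 = 30 := by
    unfold hatA; rw [if_neg (by norm_num), a_eq 2 (by norm_num), a_eq (2 - 1) (by norm_num), t2]
    have : cnt (2 - 1) = 42 := t1
    rw [this]; norm_num
  have e3 : hatA Q 3 = 32 := by
    unfold hatA; rw [if_neg (by norm_num), a_eq 3 (by norm_num), a_eq (3 - 1) (by norm_num), t3]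
    have : cnt (3 - 1) = 72 := t2
    rw [this]; norm_num
  have e4 : hatA Q 4 = 16 := by
    unfold hatA; rw [if_neg (by norm_num), a_eq 4 (by norm_num), a_eq (4 - 1) (by norm_num), t4]
    have : cnt (4 - 1) = 104 := t3
    rw [this]; norm_num
  have hc : Fintype.card Q = 5 := rfl
  refine ⟨hc, e0, e1, e2, e3, e4, ?_⟩
  rintro ⟨j, hj, h1, h2⟩
  rw [hc] at hj h2
  by_cases hj1 : j ≤ 2
  · have h3 := h2 2 hj1 (by norm_num)
    norm_num at h3
    rw [e2, e3] at h3
    norm_num at h3
  · have h3 := h1 1 (by omega)
    norm_num at h3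
    rw [e1, e2] at h3
    norm_num at h3

end Pool.Agent.Results.MP_e89dd6_co.NotUnimodal
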